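import Pool.Agent.H80.Kac.Defs

/-!
The blocks: upper triangular matrices of size `p + 1` with entries
`t ^ (p - j) s ^ (j - i) / (j - i)!` apart from the corner, which is free.
-/

set_option autoImplicit false

namespace Pool.Agent.H80.Kac

open Nat Finset

variable {p : ℕ} {k : Type} [Field k]

/-- The matrix with parameters `t, s, b` over a `k`-algebra. -/
noncomputable def ent (p : ℕ) (k : Type) [Field k] {R : Type} [CommRing R] [Algebra k R]
    (t s b : R) : Matrix (Fin (p + 1)) (Fin (p + 1)) R := fun i j =>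
  if (i : ℕ) = 0 ∧ (j : ℕ) = p then b
  else if (i : ℕ) ≤ j then
    algebraMap k R (((((j : ℕ) - i)! : ℕ) : k)⁻¹) * t ^ (p - (j : ℕ)) * s ^ ((j : ℕ) - i)
  else 0

theorem ent_map {R R' : Type} [CommRing R] [Algebra k R] [CommRing R'] [Algebra k R']
    (f : R →ₐ[k] R') (t s b : R) (i j : Fin (p + 1)) :
    f (ent p k t s b i j) = ent p k (f t) (f s) (f b) i j := by
  unfold ent
  split_ifs
  · rfl
  · simp only [map_mul, map_pow, AlgHom.commutes]
  · simp

/-- The index `p - 1`. -/
def q (p : ℕ) : Fin (p + 1) := ⟨p - 1, by omega⟩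

theorem ent_qq (hp : 2 ≤ p) {R : Type} [CommRing R] [Algebra k R] (t s b : R) :
    ent p k t s b (q p) (q p) = t := by
  have h1 : p - (p - 1) = 1 := by omega
  have h2 : ¬ (p - 1 = 0 ∧ p - 1 = p) := by omega
  simp [ent, q, h1, h2]

theorem ent_ql (hp : 2 ≤ p) {R : Type} [CommRing R] [Algebra k R] (t s b : R) :
    ent p k t s b (q p) (Fin.last p) = s := by
  have h1 : p - (p - 1) = 1 := by omega
  have h2 : ¬ (p - 1 = 0) := by omega
  simp [ent, q, h1, h2]

theorem ent_corner {R : Type} [CommRing R] [Algebra k R] (t s b : R) :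
    ent p k t s b 0 (Fin.last p) = b := by
  simp [ent]

theorem ent_ll (hp : 2 ≤ p) {R : Type} [CommRing R] [Algebra k R] (t s b : R) :
    ent p k t s b (Fin.last p) (Fin.last p) = 1 := by
  have h2 : ¬ (p = 0) := by omega
  simp [ent, h2]

theorem ent_one (hp : 2 ≤ p) {R : Type} [CommRing R] [Algebra k R] :
    ent p k (1 : R) 0 0 = 1 := by
  ext i j
  unfold ent
  rw [Matrix.one_apply]
  split_ifs with h1 h2 h3 h4 h5
  · exfalso
    subst h2
    omega
  · rfl
  · subst h4
    simp
  · have : (j : ℕ) - i ≠ 0 := by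
      intro h
      apply h4
      apply Fin.ext
      omega
    rw [zero_pow this]
    simp
  · exfalso
    subst h5
    omega
  · rfl

theorem fact_ne [CharP k p] (hp : p.Prime) {n : ℕ} (h : n < p) : ((n ! : ℕ) : k) ≠ 0 := by
  rw [Ne, CharP.cast_eq_zero_iff k p, hp.dvd_factorial]
  omega

theorem ent_mul [CharP k p] (hp : p.Prime) {R : Type} [CommRing R] [Algebra k R]
    (t s b t' s' b' : R) :
    ent p k t s b * ent p k t' s' b' =
      ent p k (t * t') (s + t * s')
        ((ent p k t s b * ent p k t' s' b') 0 (Fin.last p)) := by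
  have hp2 := hp.two_le
  ext i l
  by_cases hc : (i : ℕ) = 0 ∧ (l : ℕ) = p
  · have hi : i = 0 := Fin.ext hc.1
    have hl : l = Fin.last p := Fin.ext hc.2
    subst hi hl
    rw [ent_corner]
  · rw [Matrix.mul_apply]
    have hrhs : ent p k (t * t') (s + t * s')
        ((ent p k t s b * ent p k t' s' b') 0 (Fin.last p)) i l =
        if (i : ℕ) ≤ l then
          algebraMap k R (((((l : ℕ) - i)! : ℕ) : k)⁻¹) * (t * t') ^ (p - (l : ℕ)) *
            (s + t * s') ^ ((l : ℕ) - i) else 0 := by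
      simp only [ent, if_neg hc]
    rw [hrhs]
    have hil := i.isLt
    have hll := l.isLt
    -- the terms
    have hterm : ∀ j : Fin (p + 1), ent p k t s b i j * ent p k t' s' b' j l =
        (fun n : ℕ => if (i : ℕ) ≤ n ∧ n ≤ l then
          (algebraMap k R ((((n - i)! : ℕ) : k)⁻¹) * t ^ (p - n) * s ^ (n - (i : ℕ))) *
          (algebraMap k R (((((l : ℕ) - n)! : ℕ) : k)⁻¹) * t' ^ (p - (l : ℕ)) *
            s' ^ ((l : ℕ) - n)) else 0) (j : ℕ) := by
      intro j
      have hjl := j.isLt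
      simp only [ent]
      by_cases h1 : (i : ℕ) ≤ j
      · by_cases h2 : (j : ℕ) ≤ l
        · rw [if_neg (by omega), if_pos h1, if_neg (by omega), if_pos h2, if_pos ⟨h1, h2⟩]
        · rw [if_neg (c := (j : ℕ) = 0 ∧ (l : ℕ) = p) (by omega), if_neg h2,
            if_neg (c := (i : ℕ) ≤ j ∧ (j : ℕ) ≤ l) (by omega), mul_zero]
      · rw [if_neg (c := (i : ℕ) = 0 ∧ (j : ℕ) = p) (by omega), if_neg h1,
            if_neg (c := (i : ℕ) ≤ j ∧ (j : ℕ) ≤ l) (by omega), zero_mul]
    rw [Finset.sum_congr rfl fun j _ => hterm j, Fin.sum_univ_eq_sum_range (fun n : ℕ =>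
        if (i : ℕ) ≤ n ∧ n ≤ l then
          (algebraMap k R ((((n - i)! : ℕ) : k)⁻¹) * t ^ (p - n) * s ^ (n - (i : ℕ))) *
          (algebraMap k R (((((l : ℕ) - n)! : ℕ) : k)⁻¹) * t' ^ (p - (l : ℕ)) *
            s' ^ ((l : ℕ) - n)) else 0) (p + 1)]
    rw [← Finset.sum_filter]
    have hf : (Finset.range (p + 1)).filter (fun n => (i : ℕ) ≤ n ∧ n ≤ l) =
        Finset.Ico (i : ℕ) (l + 1) := by
      ext n
      simp only [Finset.mem_filter, Finset.mem_range, Finset.mem_Ico]
      omega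
    rw [hf]
    by_cases h1 : (i : ℕ) ≤ l
    · rw [if_pos h1, Finset.sum_Ico_eq_sum_range]
      have hN : (l : ℕ) + 1 - i = ((l : ℕ) - i) + 1 := by omega
      rw [hN, add_pow, Finset.mul_sum]
      refine Finset.sum_congr rfl fun a ha => ?_
      have ha' : a ≤ (l : ℕ) - i := by
        have := Finset.mem_range.mp ha
        omega
      have e1 : (i : ℕ) + a - i = a := by omega
      have e2 : p - ((i : ℕ) + a) = (p - (l : ℕ)) + ((l : ℕ) - i - a) := by omega
      have e3 : (l : ℕ) - ((i : ℕ) + a) = (l : ℕ) - i - a := by omega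
      rw [e1, e2, e3]
      have hNp : (l : ℕ) - i < p := by omega
      have n1 : (((((l : ℕ) - i)! : ℕ) : k)) ≠ 0 := fact_ne hp hNp
      have n2 : (((a ! : ℕ) : k)) ≠ 0 := fact_ne hp (by omega)
      have n3 : (((((l : ℕ) - i - a)! : ℕ) : k)) ≠ 0 := fact_ne hp (by omega)
      have hch := Nat.choose_mul_factorial_mul_factorial ha'
      have hch' : (((((l : ℕ) - i).choose a : ℕ) : k)) * ((a ! : ℕ) : k) *
          (((((l : ℕ) - i - a)! : ℕ) : k)) = (((((l : ℕ) - i)! : ℕ) : k)) := by
        rw [← hch]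
        push_cast
        ring
      have hcc : (((((l : ℕ) - i)! : ℕ) : k))⁻¹ * (((((l : ℕ) - i).choose a : ℕ) : k)) =
          ((a ! : ℕ) : k)⁻¹ * (((((l : ℕ) - i - a)! : ℕ) : k))⁻¹ := by
        rw [← hch']
        have n4 : (((((l : ℕ) - i).choose a : ℕ) : k)) ≠ 0 := by
          intro h0
          rw [h0] at hch'
          apply n1
          rw [← hch']
          ring
        field_simp
      have hcc' : algebraMap k R ((((((l : ℕ) - i)! : ℕ) : k))⁻¹) *
          ((((l : ℕ) - i).choose a : ℕ) : R) =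
          algebraMap k R (((a ! : ℕ) : k)⁻¹) *
            algebraMap k R ((((((l : ℕ) - i - a)! : ℕ) : k))⁻¹) := by
        rw [← map_mul, ← hcc, map_mul, map_natCast]
      calc (algebraMap k R (((a ! : ℕ) : k)⁻¹) *
            t ^ ((p - (l : ℕ)) + ((l : ℕ) - i - a)) * s ^ a) *
            (algebraMap k R ((((((l : ℕ) - i - a)! : ℕ) : k))⁻¹) * t' ^ (p - (l : ℕ)) *
              s' ^ ((l : ℕ) - i - a))
          = (algebraMap k R (((a ! : ℕ) : k)⁻¹) *
            algebraMap k R ((((((l : ℕ) - i - a)! : ℕ) : k))⁻¹)) *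
            ((t * t') ^ (p - (l : ℕ)) * (s ^ a * (t * s') ^ ((l : ℕ) - i - a))) := by
            rw [pow_add, mul_pow, mul_pow]
            ring
        _ = algebraMap k R ((((((l : ℕ) - i)! : ℕ) : k))⁻¹) * (t * t') ^ (p - (l : ℕ)) *
            (s ^ a * (t * s') ^ ((l : ℕ) - i - a) * ((((l : ℕ) - i).choose a : ℕ) : R)) := by
            rw [← hcc']
            ring
    · rw [if_neg h1]
      have : Finset.Ico (i : ℕ) (l + 1) = ∅ := by
        rw [Finset.Ico_eq_empty_iff]
        omega
      rw [this, Finset.sum_empty]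

end Pool.Agent.H80.Kac
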