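import Mathlib

/-!
Subgroups of `GL` over a field, their Lie algebras (tangent space at the identity of the Zariski
closure), centralisers of linear forms and modules over reduced enveloping algebras.
-/

set_option autoImplicit false

namespace Pool.Agent.H80.Kac

open MvPolynomial

variable {ι : Type} [Fintype ι] [DecidableEq ι] {k : Type} [Field k]

/-- The value at a matrix of a polynomial in the matrix entries. -/
noncomputable def ev (f : MvPolynomial (ι × ι) k) (A : Matrix ι ι k) : k :=
  MvPolynomial.eval (fun ab : ι × ι => A ab.1 ab.2) f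

/-- The polynomial `f` vanishes at all elements of the subgroup `S` of `GL`. -/
def VanishesOn (f : MvPolynomial (ι × ι) k) (S : Subgroup (Matrix.GeneralLinearGroup ι k)) :
    Prop :=
  ∀ g ∈ S, ev f (g : Matrix ι ι k) = 0

/-- The subgroup `S` of `GL` is Zariski closed. -/
def ZariskiClosed (S : Subgroup (Matrix.GeneralLinearGroup ι k)) : Prop :=
  ∀ g : Matrix.GeneralLinearGroup ι k,
    (∀ f : MvPolynomial (ι × ι) k, VanishesOn f S → ev f (g : Matrix ι ι k) = 0) → g ∈ S

/-- The subgroup `S` of `GL` is irreducible in the Zariski topology (hence connected). -/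
def ZariskiIrreducible (S : Subgroup (Matrix.GeneralLinearGroup ι k)) : Prop :=
  ∀ f g : MvPolynomial (ι × ι) k, VanishesOn (f * g) S → VanishesOn f S ∨ VanishesOn g S

/-- The Lie algebra of `S`: the tangent space at the identity of the Zariski closure of `S`, that
is, the matrices killed by the differential at `1` of every polynomial vanishing on `S`. -/
noncomputable def lieAlg (S : Subgroup (Matrix.GeneralLinearGroup ι k)) :
    Submodule k (Matrix ι ι k) where
  carrier := {X | ∀ f : MvPolynomial (ι × ι) k, VanishesOn f S →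
    ∑ ab : ι × ι, ev (MvPolynomial.pderiv ab f) 1 * X ab.1 ab.2 = 0}
  add_mem' := by
    intro X Y hX hY f hf
    simp only [Matrix.add_apply, mul_add, Finset.sum_add_distrib, hX f hf, hY f hf, add_zero]
  zero_mem' := by
    intro f hf
    simp
  smul_mem' := by
    intro c X hX f hf
    have h := hX f hf
    calc ∑ ab : ι × ι, ev (MvPolynomial.pderiv ab f) 1 * (c • X) ab.1 ab.2
        = c * ∑ ab : ι × ι, ev (MvPolynomial.pderiv ab f) 1 * X ab.1 ab.2 := by
          rw [Finset.mul_sum]
          refine Finset.sum_congr rfl fun ab _ => ?_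
          simp only [Matrix.smul_apply, smul_eq_mul]
          ring
      _ = 0 := by rw [h, mul_zero]

/-- The centraliser in the Lie algebra of `S` of the linear form `χ`. -/
noncomputable def chiCentralizer (S : Subgroup (Matrix.GeneralLinearGroup ι k))
    (χ : Matrix ι ι k →ₗ[k] k) : Submodule k (Matrix ι ι k) where
  carrier := {X | X ∈ lieAlg S ∧ ∀ Y ∈ lieAlg S, χ (X * Y - Y * X) = 0}
  add_mem' := by
    rintro X X' ⟨hX, hX2⟩ ⟨hY, hY2⟩
    refine ⟨add_mem hX hY, fun Y h => ?_⟩
    have : (X + X') * Y - Y * (X + X') = (X * Y - Y * X) + (X' * Y - Y * X') := by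
      rw [add_mul, mul_add]
      abel
    rw [this, map_add, hX2 Y h, hY2 Y h, add_zero]
  zero_mem' := by
    refine ⟨zero_mem _, fun Y h => ?_⟩
    simp
  smul_mem' := by
    rintro c X ⟨hX, hX2⟩
    refine ⟨Submodule.smul_mem _ c hX, fun Y h => ?_⟩
    have : (c • X) * Y - Y * (c • X) = c • (X * Y - Y * X) := by
      rw [Matrix.smul_mul, Matrix.mul_smul, smul_sub]
    rw [this, map_smul, hX2 Y h, smul_zero]

/-- `ρ` defines on `M` a module over the Lie algebra of `S`, with `p`-character `χ`: it respects
brackets, and `x ^ p - x ^ [p]` acts as the scalar `χ(x) ^ p` for every `x` in the Lie algebra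
(for matrices the `p`-map is the `p`-th power), so `M` is a module over the reduced enveloping
algebra of `χ`. -/
def IsReducedModule (p : ℕ) (S : Subgroup (Matrix.GeneralLinearGroup ι k))
    (χ : Matrix ι ι k →ₗ[k] k) {M : Type} [AddCommGroup M] [Module k M]
    (ρ : Matrix ι ι k →ₗ[k] Module.End k M) : Prop :=
  (∀ X ∈ lieAlg S, ∀ Y ∈ lieAlg S, ρ (X * Y - Y * X) = ρ X * ρ Y - ρ Y * ρ X) ∧
    ∀ X ∈ lieAlg S, ρ X ^ p - ρ (X ^ p) = (χ X) ^ p • (1 : Module.End k M)

end Pool.Agent.H80.Kac
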