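import Pool.Agent.H80.Kac.Blk

/-!
The group: block diagonal matrices with `m` blocks of the form `ent`.
-/

set_option autoImplicit false

namespace Pool.Agent.H80.Kac

open Nat Finset

variable {p : ℕ} {m : ℕ} {k : Type} [Field k]

/-- Block diagonal matrix with blocks `ent`, with parameters `v o = (t, s, b)`. -/
noncomputable def mat (p m : ℕ) (k : Type) [Field k] {R : Type} [CommRing R] [Algebra k R]
    (v : Fin m → Fin 3 → R) : Matrix (Fin (p + 1) × Fin m) (Fin (p + 1) × Fin m) R :=
  Matrix.blockDiagonal fun o => ent p k (v o 0) (v o 1) (v o 2)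

theorem mat_map {R R' : Type} [CommRing R] [Algebra k R] [CommRing R'] [Algebra k R']
    (f : R →ₐ[k] R') (v : Fin m → Fin 3 → R) (a b : Fin (p + 1) × Fin m) :
    f (mat p m k v a b) = mat p m k (fun o c => f (v o c)) a b := by
  unfold mat
  rw [Matrix.blockDiagonal_apply, Matrix.blockDiagonal_apply]
  split_ifs with h
  · exact ent_map f _ _ _ _ _
  · exact map_zero f

theorem ent_det (hp : 2 ≤ p) (t s b : k) :
    (ent p k t s b).det = ∏ i : Fin (p + 1), t ^ (p - (i : ℕ)) := by
  rw [Matrix.det_of_isUpperTriangular]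
  · refine Finset.prod_congr rfl fun i _ => ?_
    unfold ent
    rw [if_neg (by omega), if_pos le_rfl]
    simp
  · intro i j hij
    have h : (j : ℕ) < i := hij
    unfold ent
    rw [if_neg (by omega), if_neg (by omega)]

theorem ent_det_ne (hp : 2 ≤ p) {t s b : k} (ht : t ≠ 0) : (ent p k t s b).det ≠ 0 := by
  rw [ent_det hp]
  exact Finset.prod_ne_zero_iff.mpr fun i _ => pow_ne_zero _ ht

theorem t_ne_of_det (hp : 2 ≤ p) {t s b : k} (h : (ent p k t s b).det ≠ 0) : t ≠ 0 := by
  rintro rfl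
  apply h
  rw [ent_det hp]
  apply Finset.prod_eq_zero (Finset.mem_univ (q p))
  have h1 : p - (p - 1) = 1 := by omega
  simp [q, h1]

theorem mat_det (v : Fin m → Fin 3 → k) :
    (mat p m k v).det = ∏ o : Fin m, (ent p k (v o 0) (v o 1) (v o 2)).det :=
  Matrix.det_blockDiagonal _

theorem mat_det_ne (hp : 2 ≤ p) {v : Fin m → Fin 3 → k} (hv : ∀ o, v o 0 ≠ 0) :
    (mat p m k v).det ≠ 0 := by
  rw [mat_det]
  exact Finset.prod_ne_zero_iff.mpr fun o _ => ent_det_ne hp (hv o)

theorem ent_corner_change [CharP k p] (hp : p.Prime) (t s b t' s' b' : k) :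
    (ent p k t s b * ent p k t' s' b') 0 (Fin.last p) =
      (ent p k t s b * ent p k t' s' 0) 0 (Fin.last p) + t ^ p * b' := by
  have hp2 := hp.two_le
  rw [Matrix.mul_apply, Matrix.mul_apply]
  have h : ∀ j : Fin (p + 1), ent p k t s b 0 j * ent p k t' s' b' j (Fin.last p) =
      ent p k t s b 0 j * ent p k t' s' 0 j (Fin.last p) +
        (if j = 0 then t ^ p * b' else 0) := by
    intro j
    by_cases hj : j = 0
    · subst hj
      rw [if_pos rfl, ent_corner, ent_corner, mul_zero, zero_add]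
      congr 1
      unfold ent
      rw [if_neg (by simp; omega), if_pos le_rfl]
      simp
    · rw [if_neg hj, add_zero]
      congr 1
      have : (j : ℕ) ≠ 0 := fun h => hj (Fin.ext h)
      simp only [ent, this, false_and, if_false]
  rw [Finset.sum_congr rfl fun j _ => h j, Finset.sum_add_distrib]
  simp

theorem ent_inv [CharP k p] (hp : p.Prime) (t s b : k) (ht : t ≠ 0) :
    ∃ s' b' : k, ent p k t s b * ent p k t⁻¹ s' b' = 1 := by
  have hp2 := hp.two_le
  refine ⟨- (t⁻¹ * s), - ((t ^ p)⁻¹ *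
    (ent p k t s b * ent p k t⁻¹ (- (t⁻¹ * s)) 0) 0 (Fin.last p)), ?_⟩
  rw [ent_mul hp, ent_corner_change hp]
  have h1 : t * t⁻¹ = 1 := mul_inv_cancel₀ ht
  have h2 : s + t * -(t⁻¹ * s) = 0 := by
    field_simp
    ring
  have h3 : (ent p k t s b * ent p k t⁻¹ (-(t⁻¹ * s)) 0) 0 (Fin.last p) + t ^ p *
      (- ((t ^ p)⁻¹ * (ent p k t s b * ent p k t⁻¹ (- (t⁻¹ * s)) 0) 0 (Fin.last p))) = 0 := by
    have : t ^ p ≠ 0 := pow_ne_zero _ ht
    field_simp
    ring
  rw [h1, h2, h3]
  exact ent_one hp2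

/-- The group. -/
noncomputable def G (p m : ℕ) (k : Type) [Field k] [CharP k p] (hp : p.Prime) :
    Subgroup (Matrix.GeneralLinearGroup (Fin (p + 1) × Fin m) k) where
  carrier := {g | ∃ v : Fin m → Fin 3 → k,
    (g : Matrix (Fin (p + 1) × Fin m) (Fin (p + 1) × Fin m) k) = mat p m k v}
  mul_mem' := by
    rintro a b ⟨v, hv⟩ ⟨w, hw⟩
    refine ⟨fun o => ![v o 0 * w o 0, v o 1 + v o 0 * w o 1,
      (ent p k (v o 0) (v o 1) (v o 2) * ent p k (w o 0) (w o 1) (w o 2)) 0 (Fin.last p)], ?_⟩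
    rw [Units.val_mul, hv, hw]
    unfold mat
    rw [← Matrix.blockDiagonal_mul]
    congr 1
    funext o
    exact ent_mul hp _ _ _ _ _ _
  one_mem' := by
    refine ⟨fun _ => ![1, 0, 0], ?_⟩
    rw [Units.val_one]
    unfold mat
    rw [← Matrix.blockDiagonal_one]
    congr 1
    funext o
    exact (ent_one hp.two_le).symm
  inv_mem' := by
    rintro a ⟨v, hv⟩
    have hdet : (mat p m k v).det ≠ 0 := by
      rw [← hv]
      exact a.isUnit.map (Matrix.detMonoidHom) |>.ne_zero
    rw [mat_det] at hdet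
    have ht : ∀ o, v o 0 ≠ 0 := fun o =>
      t_ne_of_det hp.two_le (Finset.prod_ne_zero_iff.mp hdet o (Finset.mem_univ o))
    choose s' b' hsb using fun o => ent_inv hp (v o 0) (v o 1) (v o 2) (ht o)
    refine ⟨fun o => ![(v o 0)⁻¹, s' o, b' o], ?_⟩
    have h1 : mat p m k v * mat p m k (fun o => ![(v o 0)⁻¹, s' o, b' o]) = 1 := by
      unfold mat
      rw [← Matrix.blockDiagonal_mul, ← Matrix.blockDiagonal_one]
      congr 1
      funext o
      exact hsb o
    rw [← hv] at h1
    exact Units.inv_eq_of_mul_eq_one_right h1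

theorem mem_G [CharP k p] {hp : p.Prime}
    {g : Matrix.GeneralLinearGroup (Fin (p + 1) × Fin m) k} :
    g ∈ G p m k hp ↔ ∃ v : Fin m → Fin 3 → k,
      (g : Matrix (Fin (p + 1) × Fin m) (Fin (p + 1) × Fin m) k) = mat p m k v := Iff.rfl

/-- The generic element. -/
noncomputable def Phi (p m : ℕ) (k : Type) [Field k] :
    MvPolynomial ((Fin (p + 1) × Fin m) × (Fin (p + 1) × Fin m)) k →ₐ[k]
      MvPolynomial (Fin m × Fin 3) k :=
  MvPolynomial.aeval fun ab => mat p m k (fun o c => MvPolynomial.X (o, c)) ab.1 ab.2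

theorem aeval_Phi {R : Type} [CommRing R] [Algebra k R] (v : Fin m → Fin 3 → R)
    (f : MvPolynomial ((Fin (p + 1) × Fin m) × (Fin (p + 1) × Fin m)) k) :
    MvPolynomial.aeval (fun oc : Fin m × Fin 3 => v oc.1 oc.2) (Phi p m k f) =
      MvPolynomial.aeval (fun ab : (Fin (p + 1) × Fin m) × (Fin (p + 1) × Fin m) =>
        mat p m k v ab.1 ab.2) f := by
  have h : (MvPolynomial.aeval (fun oc : Fin m × Fin 3 => v oc.1 oc.2)).comp (Phi p m k) =
      MvPolynomial.aeval (R := k) (fun ab : (Fin (p + 1) × Fin m) × (Fin (p + 1) × Fin m) =>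
        mat p m k v ab.1 ab.2) := by
    apply MvPolynomial.algHom_ext
    intro ab
    simp only [Phi, AlgHom.comp_apply, MvPolynomial.aeval_X]
    rw [mat_map]
    simp only [MvPolynomial.aeval_X]
  exact DFunLike.congr_fun h f

theorem ev_eq_aeval {ι : Type} [Fintype ι] [DecidableEq ι] (f : MvPolynomial (ι × ι) k)
    (A : Matrix ι ι k) : ev f A = MvPolynomial.aeval (fun ab : ι × ι => A ab.1 ab.2) f := by
  unfold ev
  rw [MvPolynomial.aeval_eq_eval]

theorem ev_mat (v : Fin m → Fin 3 → k)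
    (f : MvPolynomial ((Fin (p + 1) × Fin m) × (Fin (p + 1) × Fin m)) k) :
    ev f (mat p m k v) = MvPolynomial.eval (fun oc : Fin m × Fin 3 => v oc.1 oc.2)
      (Phi p m k f) := by
  rw [ev_eq_aeval, ← aeval_Phi, MvPolynomial.aeval_eq_eval]

theorem vanishes_iff [CharP k p] (hp : p.Prime) [Infinite k]
    (f : MvPolynomial ((Fin (p + 1) × Fin m) × (Fin (p + 1) × Fin m)) k) :
    VanishesOn f (G p m k hp) ↔ Phi p m k f = 0 := by
  constructor
  · intro h
    have hprod : Phi p m k f * ∏ o : Fin m, MvPolynomial.X (o, (0 : Fin 3)) = 0 := by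
      apply MvPolynomial.funext
      intro x
      rw [map_mul, map_zero, map_prod]
      simp only [MvPolynomial.eval_X]
      by_cases hx : ∀ o : Fin m, x (o, 0) ≠ 0
      · have hd := mat_det_ne (p := p) (k := k) hp.two_le (v := fun o c => x (o, c)) hx
        have := h (Matrix.GeneralLinearGroup.mkOfDetNeZero _ hd) ⟨fun o c => x (o, c), rfl⟩
        change ev f (mat p m k fun o c => x (o, c)) = 0 at this
        rw [ev_mat] at this
        change MvPolynomial.eval x (Phi p m k f) = 0 at this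
        rw [this, zero_mul]
      · push Not at hx
        obtain ⟨o, ho⟩ := hx
        rw [Finset.prod_eq_zero (Finset.mem_univ o) ho, mul_zero]
    rcases mul_eq_zero.mp hprod with h | h
    · exact h
    · exfalso
      rw [Finset.prod_eq_zero_iff] at h
      obtain ⟨o, -, ho⟩ := h
      exact MvPolynomial.X_ne_zero _ ho
  · rintro h g ⟨v, hv⟩
    rw [hv, ev_mat, h, map_zero]

theorem irreducible_G [CharP k p] (hp : p.Prime) [Infinite k] :
    ZariskiIrreducible (G p m k hp) := by
  intro f g hfg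
  rw [vanishes_iff, map_mul] at hfg
  rw [vanishes_iff, vanishes_iff]
  exact mul_eq_zero.mp hfg

end Pool.Agent.H80.Kac
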