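import Pool.Agent.H80.Kac.Grp

/-!
The group is Zariski closed and solvable.
-/

set_option autoImplicit false

namespace Pool.Agent.H80.Kac

open Nat Finset

variable {p : ℕ} {m : ℕ} {k : Type} [Field k]

/-- The parameters of a matrix. -/
def par (p m : ℕ) {R : Type} (x : Matrix (Fin (p + 1) × Fin m) (Fin (p + 1) × Fin m) R) :
    Fin m → Fin 3 → R :=
  fun o => ![x (q p, o) (q p, o), x (q p, o) (Fin.last p, o), x (0, o) (Fin.last p, o)]

theorem par_mat (hp : 2 ≤ p) {R : Type} [CommRing R] [Algebra k R] (v : Fin m → Fin 3 → R) :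
    par p m (mat p m k v) = v := by
  funext o c
  unfold par mat
  fin_cases c
  · simp [Matrix.blockDiagonal_apply, ent_qq hp]
  · simp [Matrix.blockDiagonal_apply, ent_ql hp]
  · simp [Matrix.blockDiagonal_apply, ent_corner]

/-- The equations of the group. -/
noncomputable def eqn (p m : ℕ) (k : Type) [Field k] (a b : Fin (p + 1) × Fin m) :
    MvPolynomial ((Fin (p + 1) × Fin m) × (Fin (p + 1) × Fin m)) k :=
  MvPolynomial.X (a, b) - mat p m k (par p m fun a b => MvPolynomial.X (a, b)) a b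

theorem aeval_eqn {R : Type} [CommRing R] [Algebra k R]
    (x : Matrix (Fin (p + 1) × Fin m) (Fin (p + 1) × Fin m) R) (a b : Fin (p + 1) × Fin m) :
    MvPolynomial.aeval (fun ab : (Fin (p + 1) × Fin m) × (Fin (p + 1) × Fin m) => x ab.1 ab.2)
      (eqn p m k a b) = x a b - mat p m k (par p m x) a b := by
  unfold eqn
  rw [map_sub, MvPolynomial.aeval_X, mat_map]
  congr 2
  funext o c
  unfold par
  fin_cases c <;> simp

theorem vanishes_eqn [CharP k p] (hp : p.Prime) (a b : Fin (p + 1) × Fin m) :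
    VanishesOn (eqn p m k a b) (G p m k hp) := by
  rintro g ⟨v, hv⟩
  rw [ev_eq_aeval, aeval_eqn, hv, par_mat hp.two_le, sub_self]

theorem closed_G [CharP k p] (hp : p.Prime) : ZariskiClosed (G p m k hp) := by
  intro g hg
  refine ⟨par p m (g : Matrix (Fin (p + 1) × Fin m) (Fin (p + 1) × Fin m) k), ?_⟩
  ext a b
  have h := hg (eqn p m k a b) (vanishes_eqn hp a b)
  rw [ev_eq_aeval, aeval_eqn] at h
  exact sub_eq_zero.mp h

/-! ### Solvability -/

theorem ent_rev (s b : k) (i j : Fin (p + 1)) :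
    ent p k 1 s b (Fin.rev j) (Fin.rev i) = ent p k 1 s b i j := by
  unfold ent
  simp only [Fin.val_rev, one_pow, mul_one]
  have hi := i.isLt
  have hj := j.isLt
  have e : p + 1 - ((i : ℕ) + 1) - (p + 1 - ((j : ℕ) + 1)) = (j : ℕ) - i := by omega
  rw [e]
  by_cases h1 : (i : ℕ) = 0 ∧ (j : ℕ) = p
  · rw [if_pos h1, if_pos (by omega)]
  · rw [if_neg h1, if_neg (by omega)]
    by_cases h2 : (i : ℕ) ≤ j
    · rw [if_pos h2, if_pos (by omega)]
    · rw [if_neg h2, if_neg (by omega)]

theorem ent_comm [CharP k p] (hp : p.Prime) (s b s' b' : k) :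
    ent p k 1 s b * ent p k 1 s' b' = ent p k 1 s' b' * ent p k 1 s b := by
  rw [ent_mul hp, ent_mul hp (s := s')]
  have h : (ent p k 1 s b * ent p k 1 s' b') 0 (Fin.last p) =
      (ent p k 1 s' b' * ent p k 1 s b) 0 (Fin.last p) := by
    rw [Matrix.mul_apply, Matrix.mul_apply, ← Equiv.sum_comp Fin.revPerm]
    refine Finset.sum_congr rfl fun j _ => ?_
    rw [Fin.revPerm_apply, mul_comm]
    rw [← ent_rev s' b' (Fin.rev j) (Fin.last p), ← ent_rev s b 0 (Fin.rev j)]
    simp
  rw [h]
  congr 1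
  ring

theorem mem_inj {v w : Fin m → Fin 3 → k} (hp : 2 ≤ p) (h : mat p m k v = mat p m k w) :
    v = w := by
  rw [← par_mat (k := k) hp v, h, par_mat hp]

/-- The homomorphism to the torus. -/
noncomputable def tor (p m : ℕ) (k : Type) [Field k] [CharP k p] (hp : p.Prime) :
    G p m k hp →* (Fin m → k) where
  toFun g := fun o => (g : Matrix.GeneralLinearGroup (Fin (p + 1) × Fin m) k).val
    (q p, o) (q p, o)
  map_one' := by
    funext o
    simp
  map_mul' := by
    rintro ⟨a, v, hv⟩ ⟨b, w, hw⟩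
    funext o
    suffices h : ((a : Matrix (Fin (p + 1) × Fin m) (Fin (p + 1) × Fin m) k) *
        (b : Matrix (Fin (p + 1) × Fin m) (Fin (p + 1) × Fin m) k)) (q p, o) (q p, o) =
        (a : Matrix (Fin (p + 1) × Fin m) (Fin (p + 1) × Fin m) k) (q p, o) (q p, o) *
        (b : Matrix (Fin (p + 1) × Fin m) (Fin (p + 1) × Fin m) k) (q p, o) (q p, o) by
      exact h
    rw [hv, hw]
    unfold mat
    rw [← Matrix.blockDiagonal_mul, Matrix.blockDiagonal_apply_eq, Matrix.blockDiagonal_apply_eq,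
      Matrix.blockDiagonal_apply_eq, ent_mul hp, ent_qq hp.two_le, ent_qq hp.two_le,
      ent_qq hp.two_le]

theorem solvable_G [CharP k p] (hp : p.Prime) : Group.IsSolvable (G p m k hp) := by
  have hker : Group.IsSolvable (tor p m k hp).toHomUnits.ker := by
    apply Group.isSolvable_of_comm
    rintro ⟨⟨a, v, hv⟩, ha⟩ ⟨⟨b, w, hw⟩, hb⟩
    have h1 : ∀ o, v o 0 = 1 := by
      intro o
      have h2 := congrArg (fun u : (Fin m → k)ˣ => (u : Fin m → k) o) (MonoidHom.mem_ker.mp ha)
      simp only [MonoidHom.coe_toHomUnits, tor, MonoidHom.coe_mk, OneHom.coe_mk] at h2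
      rw [hv] at h2
      unfold mat at h2
      rw [Matrix.blockDiagonal_apply_eq, ent_qq hp.two_le] at h2
      simpa using h2
    have h1' : ∀ o, w o 0 = 1 := by
      intro o
      have h2 := congrArg (fun u : (Fin m → k)ˣ => (u : Fin m → k) o) (MonoidHom.mem_ker.mp hb)
      simp only [MonoidHom.coe_toHomUnits, tor, MonoidHom.coe_mk, OneHom.coe_mk] at h2
      rw [hw] at h2
      unfold mat at h2
      rw [Matrix.blockDiagonal_apply_eq, ent_qq hp.two_le] at h2
      simpa using h2
    apply Subtype.ext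
    apply Subtype.ext
    apply Units.ext
    suffices h : ((a : Matrix (Fin (p + 1) × Fin m) (Fin (p + 1) × Fin m) k) *
        (b : Matrix (Fin (p + 1) × Fin m) (Fin (p + 1) × Fin m) k)) =
        (b : Matrix (Fin (p + 1) × Fin m) (Fin (p + 1) × Fin m) k) *
        (a : Matrix (Fin (p + 1) × Fin m) (Fin (p + 1) × Fin m) k) by
      exact h
    rw [hv, hw]
    unfold mat
    rw [← Matrix.blockDiagonal_mul, ← Matrix.blockDiagonal_mul]
    congr 1
    funext o
    rw [h1, h1']
    exact ent_comm hp _ _ _ _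
  exact Group.isSolvable_of_ker_le_range (tor p m k hp).toHomUnits.ker.subtype (tor p m k hp).toHomUnits
    (by rw [Subgroup.range_subtype])

end Pool.Agent.H80.Kac
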