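import Pool.Agent.H80.Kac.Grp2

/-!
The Lie algebra of the group.
-/

set_option autoImplicit false

namespace Pool.Agent.H80.Kac

open Nat Finset

variable {p : ℕ} {m : ℕ} {k : Type} [Field k]

/-- Chain rule for substituting univariate polynomials into a multivariate polynomial. -/
theorem chain {σ : Type} [Fintype σ] (g : σ → Polynomial k) (f : MvPolynomial σ k) :
    Polynomial.derivative (MvPolynomial.aeval g f) =
      ∑ i : σ, MvPolynomial.aeval g (MvPolynomial.pderiv i f) * Polynomial.derivative (g i) := by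
  classical
  induction f using MvPolynomial.induction_on with
  | C a => simp
  | add p q hp hq =>
    simp only [map_add, hp, hq, add_mul, Finset.sum_add_distrib]
  | mul_X p i hp =>
    simp only [map_mul, MvPolynomial.aeval_X, Polynomial.derivative_mul, hp,
      MvPolynomial.pderiv_mul, map_add, add_mul, Finset.sum_add_distrib,
      MvPolynomial.pderiv_X, Pi.single_apply]
    congr 1
    · rw [Finset.sum_mul]
      refine Finset.sum_congr rfl fun j _ => ?_
      ring
    · rw [Finset.sum_eq_single i]
      · simp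
      · intro j _ hj
        simp [Ne.symm hj]
      · simp

theorem eval_aeval {σ : Type} (g : σ → Polynomial k) (f : MvPolynomial σ k) (s : k) :
    Polynomial.eval s (MvPolynomial.aeval g f) =
      MvPolynomial.eval (fun i => Polynomial.eval s (g i)) f := by
  induction f using MvPolynomial.induction_on with
  | C a => simp
  | add p q hp hq => simp only [map_add, Polynomial.eval_add, hp, hq]
  | mul_X p i hp => simp only [map_mul, Polynomial.eval_mul, hp, MvPolynomial.aeval_X,
      MvPolynomial.eval_X]

theorem D_curve {ι : Type} [Fintype ι] [DecidableEq ι] (g : Matrix ι ι (Polynomial k))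
    (X : Matrix ι ι k) (h0 : ∀ a b, (g a b).eval 0 = (1 : Matrix ι ι k) a b)
    (h1 : ∀ a b, (Polynomial.derivative (g a b)).eval 0 = X a b) (f : MvPolynomial (ι × ι) k) :
    (Polynomial.derivative (MvPolynomial.aeval (fun ab : ι × ι => g ab.1 ab.2) f)).eval 0 =
      ∑ ab : ι × ι, ev (MvPolynomial.pderiv ab f) 1 * X ab.1 ab.2 := by
  rw [chain, Polynomial.eval_finsetSum]
  refine Finset.sum_congr rfl fun ab _ => ?_
  rw [Polynomial.eval_mul, eval_aeval, h1]
  congr 1
  unfold ev
  congr 2
  funext ab
  exact h0 _ _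

/-- The blocks of the Lie algebra. -/
def blk (p : ℕ) (k : Type) [Field k] (α β γ : k) : Matrix (Fin (p + 1)) (Fin (p + 1)) k :=
  fun i j => if (i : ℕ) = 0 ∧ (j : ℕ) = p then γ
    else if (j : ℕ) = i then ((p - (i : ℕ) : ℕ) : k) * α
    else if (j : ℕ) = i + 1 then β else 0

theorem ent_eval_zero (hp : 2 ≤ p) (α β γ : k) (i j : Fin (p + 1)) :
    Polynomial.eval 0 (ent p k (1 + Polynomial.C α * Polynomial.X)
      (Polynomial.C β * Polynomial.X) (Polynomial.C γ * Polynomial.X) i j) =
    (1 : Matrix (Fin (p + 1)) (Fin (p + 1)) k) i j := by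
  have h := ent_map (p := p) (k := k) (Polynomial.aeval (0 : k))
    (1 + Polynomial.C α * Polynomial.X)
      (Polynomial.C β * Polynomial.X) (Polynomial.C γ * Polynomial.X) i j
  rw [Polynomial.coe_aeval_eq_eval] at h
  rw [h, ← ent_one (k := k) (R := k) hp]
  simp

theorem ent_deriv_zero (α β γ : k) (i j : Fin (p + 1)) :
    Polynomial.eval 0 (Polynomial.derivative (ent p k (1 + Polynomial.C α * Polynomial.X)
      (Polynomial.C β * Polynomial.X) (Polynomial.C γ * Polynomial.X) i j)) =
    blk p k α β γ i j := by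
  unfold ent blk
  by_cases h1 : (i : ℕ) = 0 ∧ (j : ℕ) = p
  · rw [if_pos h1, if_pos h1]
    simp
  · rw [if_neg h1, if_neg h1]
    by_cases h2 : (j : ℕ) = i
    · rw [if_pos (by omega), if_pos h2]
      have e : (j : ℕ) - i = 0 := by omega
      rw [e, h2]
      simp [Polynomial.derivative_pow]
    · rw [if_neg h2]
      by_cases h3 : (j : ℕ) = i + 1
      · rw [if_pos (by omega), if_pos h3]
        have e : (j : ℕ) - i = 1 := by omega
        rw [e]
        simp [Polynomial.derivative_pow]
      · rw [if_neg h3]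
        by_cases h4 : (i : ℕ) ≤ j
        · rw [if_pos h4]
          obtain ⟨n, hn⟩ : ∃ n, (j : ℕ) - i = n + 2 := ⟨(j : ℕ) - i - 2, by omega⟩
          rw [hn]
          simp [Polynomial.derivative_pow]
        · rw [if_neg h4]
          simp

/-- The parametrisation of the Lie algebra. -/
def L (p m : ℕ) (k : Type) [Field k] : (Fin m → Fin 3 → k) →ₗ[k]
    Matrix (Fin (p + 1) × Fin m) (Fin (p + 1) × Fin m) k where
  toFun v := Matrix.blockDiagonal fun o => blk p k (v o 0) (v o 1) (v o 2)
  map_add' := by
    intro v w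
    rw [← Matrix.blockDiagonal_add]
    congr 1
    funext o
    ext i j
    simp only [blk, Pi.add_apply, Matrix.add_apply]
    split_ifs <;> ring
  map_smul' := by
    intro c v
    rw [RingHom.id_apply, ← Matrix.blockDiagonal_smul]
    congr 1
    funext o
    ext i j
    simp only [blk, Pi.smul_apply, Matrix.smul_apply, smul_eq_mul]
    split_ifs <;> ring

theorem L_apply (v : Fin m → Fin 3 → k) :
    L p m k v = Matrix.blockDiagonal fun o => blk p k (v o 0) (v o 1) (v o 2) := rfl

/-- The curve with tangent vector `L v`. -/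
noncomputable def cur (v : Fin m → Fin 3 → k) : Fin m → Fin 3 → Polynomial k :=
  fun o => ![1 + Polynomial.C (v o 0) * Polynomial.X, Polynomial.C (v o 1) * Polynomial.X,
    Polynomial.C (v o 2) * Polynomial.X]

theorem mat_cur_eval (hp : 2 ≤ p) (v : Fin m → Fin 3 → k) (a b : Fin (p + 1) × Fin m) :
    (mat p m k (cur v) a b).eval 0 =
      (1 : Matrix (Fin (p + 1) × Fin m) (Fin (p + 1) × Fin m) k) a b := by
  rw [← Matrix.blockDiagonal_one]
  unfold mat
  rw [Matrix.blockDiagonal_apply, Matrix.blockDiagonal_apply]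
  split_ifs with h
  · exact ent_eval_zero hp _ _ _ _ _
  · simp

theorem mat_cur_deriv (v : Fin m → Fin 3 → k) (a b : Fin (p + 1) × Fin m) :
    (Polynomial.derivative (mat p m k (cur v) a b)).eval 0 = L p m k v a b := by
  rw [L_apply]
  unfold mat
  rw [Matrix.blockDiagonal_apply, Matrix.blockDiagonal_apply]
  split_ifs with h
  · exact ent_deriv_zero _ _ _ _ _
  · simp

theorem L_mem [CharP k p] (hp : p.Prime) [Infinite k] (v : Fin m → Fin 3 → k) :
    L p m k v ∈ lieAlg (G p m k hp) := by
  intro f hf
  rw [← D_curve (mat p m k (cur v)) (L p m k v) (mat_cur_eval hp.two_le v)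
    (mat_cur_deriv v)]
  rw [← aeval_Phi, (vanishes_iff hp f).mp hf]
  simp

/-- The line through `1` in the direction `X`. -/
noncomputable def lin {ι : Type} [DecidableEq ι] (X : Matrix ι ι k) :
    Matrix ι ι (Polynomial k) := fun a b =>
  Polynomial.C ((1 : Matrix ι ι k) a b) + Polynomial.C (X a b) * Polynomial.X

theorem par_lin (hp : 2 ≤ p) (X : Matrix (Fin (p + 1) × Fin m) (Fin (p + 1) × Fin m) k) :
    par p m (lin X) = cur (par p m X) := by
  have h1 : q p ≠ Fin.last p := by
    intro h
    have := congrArg Fin.val h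
    simp only [q, Fin.val_last] at this
    omega
  have h2 : (0 : Fin (p + 1)) ≠ Fin.last p := by
    intro h
    have := congrArg Fin.val h
    simp only [Fin.val_last, Fin.val_zero] at this
    omega
  funext o c
  unfold par cur lin
  fin_cases c
  · simp
  · simp [h1]
  · simp [h2]

theorem mem_lieAlg [CharP k p] (hp : p.Prime) [Infinite k]
    (X : Matrix (Fin (p + 1) × Fin m) (Fin (p + 1) × Fin m) k) :
    X ∈ lieAlg (G p m k hp) ↔ ∃ v, X = L p m k v := by
  constructor
  · intro h
    refine ⟨par p m X, ?_⟩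
    ext a b
    have h1 := h (eqn p m k a b) (vanishes_eqn hp a b)
    rw [← D_curve (lin X) X (by intro a b; simp [lin]) (by intro a b; simp [lin]),
      aeval_eqn, par_lin hp.two_le, map_sub, Polynomial.eval_sub, mat_cur_deriv] at h1
    have h2 : (Polynomial.derivative (lin X a b)).eval 0 = X a b := by simp [lin]
    rw [h2] at h1
    exact sub_eq_zero.mp h1
  · rintro ⟨v, rfl⟩
    exact L_mem hp v

theorem par_L (hp : 2 ≤ p) (v : Fin m → Fin 3 → k) : par p m (L p m k v) = v := by
  have e1 : ¬ (p - 1 = 0 ∧ p - 1 = p) := by omega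
  have e2 : p - (p - 1) = 1 := by omega
  have e3 : ¬ (p - 1 = 0 ∧ True) := by omega
  have e4 : ¬ (p = p - 1) := by omega
  have e5 : p = p - 1 + 1 := by omega
  funext o c
  unfold par
  rw [L_apply]
  fin_cases c
  · simp only [Fin.zero_eta, Matrix.cons_val_zero, Matrix.blockDiagonal_apply_eq, blk, q]
    rw [if_neg e1, if_pos trivial, e2]
    simp
  · simp only [Fin.mk_one, Matrix.cons_val_one, Matrix.cons_val_zero,
      Matrix.blockDiagonal_apply_eq, blk, q, Fin.val_last]
    rw [if_neg e3, if_neg e4, if_pos e5]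
  · simp [blk]

theorem L_inj (hp : 2 ≤ p) : Function.Injective (L p m k) := by
  intro v w h
  rw [← par_L (k := k) hp v, h, par_L hp]

theorem lieAlg_eq [CharP k p] (hp : p.Prime) [Infinite k] :
    lieAlg (G p m k hp) = LinearMap.range (L p m k) := by
  ext X
  rw [mem_lieAlg, LinearMap.mem_range]
  exact ⟨fun ⟨v, hv⟩ => ⟨v, hv.symm⟩, fun ⟨v, hv⟩ => ⟨v, hv.symm⟩⟩

theorem finrank_lieAlg [CharP k p] (hp : p.Prime) [Infinite k] :
    Module.finrank k (lieAlg (G p m k hp)) = 3 * m := by
  rw [lieAlg_eq, LinearMap.finrank_range_of_inj (L_inj hp.two_le)]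
  simp [Module.finrank_pi_fintype, mul_comm]

end Pool.Agent.H80.Kac
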