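import Pool.Agent.H80.Kac.Lie

/-!
The form and the one-dimensional module.
-/

set_option autoImplicit false

namespace Pool.Agent.H80.Kac

open Nat Finset

variable {p : ℕ} {m : ℕ} {k : Type} [Field k]

theorem blk_apply (α β γ : k) (i j : Fin (p + 1)) : blk p k α β γ i j =
    if (i : ℕ) = 0 ∧ (j : ℕ) = p then γ
    else if (j : ℕ) = i then ((p - (i : ℕ) : ℕ) : k) * α
    else if (j : ℕ) = i + 1 then β else 0 := rfl

theorem blk_split (α β γ : k) :
    blk p k α β γ = α • blk p k 1 0 0 + β • blk p k 0 1 0 + γ • blk p k 0 0 1 := by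
  ext i j
  simp only [Matrix.add_apply, Matrix.smul_apply, smul_eq_mul, blk_apply]
  split_ifs <;> ring

theorem h_diag (hp : 2 ≤ p) : blk p k 1 0 0 =
    Matrix.diagonal fun i : Fin (p + 1) => ((p - (i : ℕ) : ℕ) : k) := by
  ext i j
  rw [blk_apply, Matrix.diagonal_apply]
  by_cases h1 : (i : ℕ) = 0 ∧ (j : ℕ) = p
  · rw [if_pos h1, if_neg]
    rintro rfl
    omega
  · rw [if_neg h1]
    by_cases h2 : i = j
    · subst h2
      simp
    · rw [if_neg h2, if_neg]
      · simp
      · intro h
        exact h2 (Fin.ext h.symm)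

theorem z_single : blk p k 0 0 1 = Matrix.single (0 : Fin (p + 1)) (Fin.last p) 1 := by
  ext i j
  rw [blk_apply, Matrix.single_apply]
  by_cases h1 : (i : ℕ) = 0 ∧ (j : ℕ) = p
  · rw [if_pos h1, if_pos ⟨Fin.ext h1.1.symm, Fin.ext h1.2.symm⟩]
  · rw [if_neg h1, if_neg (c := (0 : Fin (p + 1)) = i ∧ Fin.last p = j)]
    · simp
    · rintro ⟨rfl, rfl⟩
      simp at h1

theorem blk_zero : blk p k 0 0 0 = 0 := by
  ext i j
  rw [blk_apply]
  simp

theorem hN (hp : 2 ≤ p) : blk p k 1 0 0 * blk p k 0 1 0 - blk p k 0 1 0 * blk p k 1 0 0 =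
    blk p k 0 1 0 := by
  rw [h_diag hp]
  ext i j
  rw [Matrix.sub_apply, Matrix.diagonal_mul, Matrix.mul_diagonal, blk_apply]
  by_cases h1 : (i : ℕ) = 0 ∧ (j : ℕ) = p
  · simp [h1]
  · rw [if_neg h1]
    by_cases h2 : (j : ℕ) = i
    · rw [if_pos h2]
      simp
    · rw [if_neg h2]
      by_cases h3 : (j : ℕ) = i + 1
      · rw [if_pos h3]
        have hj := j.isLt
        have e : p - (i : ℕ) = (p - (j : ℕ)) + 1 := by omega
        rw [e]
        push_cast
        ring
      · rw [if_neg h3]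
        simp

theorem hz [CharP k p] (hp : 2 ≤ p) : blk p k 1 0 0 * blk p k 0 0 1 = 0 := by
  rw [h_diag hp]
  ext i j
  rw [Matrix.diagonal_mul, blk_apply]
  by_cases h1 : (i : ℕ) = 0 ∧ (j : ℕ) = p
  · rw [if_pos h1, h1.1]
    simp
  · rw [if_neg h1]
    simp

theorem zh [CharP k p] (hp : 2 ≤ p) : blk p k 0 0 1 * blk p k 1 0 0 = 0 := by
  rw [h_diag hp]
  ext i j
  rw [Matrix.mul_diagonal, blk_apply]
  by_cases h1 : (i : ℕ) = 0 ∧ (j : ℕ) = p
  · rw [if_pos h1, h1.2]
    simp
  · rw [if_neg h1]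
    simp

theorem Az {A : Matrix (Fin (p + 1)) (Fin (p + 1)) k} (h : ∀ i, A i 0 = 0) :
    A * blk p k 0 0 1 = 0 := by
  rw [z_single]
  ext i j
  rw [Matrix.mul_apply, Matrix.zero_apply]
  refine Finset.sum_eq_zero fun l _ => ?_
  rw [Matrix.single_apply]
  by_cases hl : 0 = l
  · subst hl
    rw [h, zero_mul]
  · simp [hl]

theorem zA {A : Matrix (Fin (p + 1)) (Fin (p + 1)) k} (h : ∀ i, A (Fin.last p) i = 0) :
    blk p k 0 0 1 * A = 0 := by
  rw [z_single]
  ext i j
  rw [Matrix.mul_apply, Matrix.zero_apply]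
  refine Finset.sum_eq_zero fun l _ => ?_
  rw [Matrix.single_apply]
  by_cases hl : Fin.last p = l
  · subst hl
    rw [h, mul_zero]
  · simp [hl]

theorem Nz (hp : 2 ≤ p) (β γ : k) : blk p k 0 β γ * blk p k 0 0 1 = 0 := by
  apply Az
  intro i
  rw [blk_apply, Fin.val_zero, if_neg (by omega), if_neg (c := 0 = (i : ℕ) + 1) (by omega)]
  simp

theorem zN (hp : 2 ≤ p) (β γ : k) : blk p k 0 0 1 * blk p k 0 β γ = 0 := by
  apply zA
  intro i
  have hi := i.isLt
  rw [blk_apply, Fin.val_last, if_neg (by omega), if_neg (c := (i : ℕ) = p + 1) (by omega)]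
  simp

theorem blk_bracket [CharP k p] (hp : 2 ≤ p) (α β γ α' β' γ' : k) :
    blk p k α β γ * blk p k α' β' γ' - blk p k α' β' γ' * blk p k α β γ =
      blk p k 0 (α * β' - α' * β) 0 := by
  have e1 := hN (k := k) hp
  have e2 := hz (k := k) hp
  have e3 := zh (k := k) hp
  have e4 := Nz (k := k) hp 1 0
  have e5 := zN (k := k) hp 1 0
  have e6 : blk p k 0 (α * β' - α' * β) 0 = (α * β' - α' * β) • blk p k 0 1 0 := by
    rw [blk_split]
    simp
  rw [e6, blk_split α β γ, blk_split α' β' γ']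
  generalize blk p k 1 0 0 = h at *
  generalize blk p k 0 1 0 = N at *
  generalize blk p k 0 0 1 = z at *
  have e7 : h * N = N + N * h := by
    rw [sub_eq_iff_eq_add] at e1
    rw [e1]
  simp only [add_mul, mul_add, smul_mul_assoc, mul_smul_comm, smul_smul, e2, e3, e4, e5, e7,
    smul_zero, add_zero, zero_add, smul_add]
  module

/-- The corner of the powers. -/
theorem pow_corner (hp : 2 ≤ p) (α β : k) (n : ℕ) (j : Fin (p + 1)) :
    (n < (j : ℕ) → (blk p k α β 0 ^ n) 0 j = 0) ∧
      ((j : ℕ) = n → (blk p k α β 0 ^ n) 0 j = β ^ n) := by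
  induction n generalizing j with
  | zero =>
    rw [pow_zero, pow_zero]
    constructor
    · intro h
      rw [Matrix.one_apply, if_neg]
      rintro rfl
      simp at h
    · intro h
      rw [Matrix.one_apply, if_pos]
      exact Fin.ext h.symm
  | succ n ih =>
    have hj := j.isLt
    constructor
    · intro h
      rw [pow_succ, Matrix.mul_apply]
      refine Finset.sum_eq_zero fun l _ => ?_
      by_cases hl : n < (l : ℕ)
      · rw [(ih l).1 hl, zero_mul]
      · rw [blk_apply, if_neg (c := (j : ℕ) = l) (by omega),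
          if_neg (c := (j : ℕ) = l + 1) (by omega)]
        simp
    · intro h
      rw [pow_succ, Matrix.mul_apply, Finset.sum_eq_single (⟨n, by omega⟩ : Fin (p + 1))]
      · rw [(ih _).2 rfl, blk_apply, if_neg (by simp only []; omega),
          if_neg (by simp only []; omega), if_pos h, pow_succ]
      · intro l _ hl
        have hl' : (l : ℕ) ≠ n := fun h => hl (Fin.ext h)
        by_cases hl : n < (l : ℕ)
        · rw [(ih l).1 hl, zero_mul]
        · rw [blk_apply, if_neg (c := (j : ℕ) = l) (by omega),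
            if_neg (c := (j : ℕ) = l + 1) (by omega)]
          simp
      · intro h
        exact absurd (Finset.mem_univ _) h

theorem pow_drop [CharP k p] (hp : 2 ≤ p) (α β γ : k) (n : ℕ) :
    blk p k α β γ ^ (n + 2) = blk p k α β 0 ^ (n + 2) := by
  have hs : blk p k α β γ = blk p k α β 0 + γ • blk p k 0 0 1 := by
    rw [blk_split α β γ, blk_split α β 0]
    simp
  have h1 : blk p k α β 0 * blk p k 0 0 1 = 0 := by
    have e : blk p k α β 0 = α • blk p k 1 0 0 + blk p k 0 β 0 := by
      rw [blk_split α β 0, blk_split 0 β 0]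
      simp
    rw [e, add_mul, smul_mul_assoc, hz hp, Nz hp, smul_zero, add_zero]
  have h2 : blk p k 0 0 1 * blk p k α β 0 = 0 := by
    have e : blk p k α β 0 = α • blk p k 1 0 0 + blk p k 0 β 0 := by
      rw [blk_split α β 0, blk_split 0 β 0]
      simp
    rw [e, mul_add, mul_smul_comm, zh hp, zN hp, smul_zero, add_zero]
  have h3 : blk p k 0 0 1 * blk p k 0 0 1 = 0 := zN hp 0 1
  induction n with
  | zero =>
    rw [hs, zero_add, pow_two, pow_two, add_mul, mul_add, mul_add, smul_mul_assoc,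
      mul_smul_comm, smul_mul_assoc, h1, h2, mul_smul_comm, h3]
    simp
  | succ n ih =>
    rw [pow_succ' _ (n + 2), ih, hs, add_mul, smul_mul_assoc]
    have : blk p k 0 0 1 * blk p k α β 0 ^ (n + 2) = 0 := by
      rw [pow_succ' _ (n + 1), ← mul_assoc, h2, zero_mul]
    rw [this, smul_zero, add_zero]
    exact (pow_succ' _ (n + 2)).symm

theorem blk_pow_corner [CharP k p] (hp : 2 ≤ p) (α β γ : k) :
    (blk p k α β γ ^ p) 0 (Fin.last p) = β ^ p := by
  obtain ⟨n, hn⟩ : ∃ n, p = n + 2 := ⟨p - 2, by omega⟩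
  have h : blk p k α β γ ^ p = blk p k α β 0 ^ p := by
    have := pow_drop hp α β γ n
    rw [← hn] at this
    exact this
  rw [h]
  exact (pow_corner hp α β p (Fin.last p)).2 (Fin.val_last p)

/-- The corner sum. -/
def theta (p m : ℕ) (k : Type) [Field k] :
    Matrix (Fin (p + 1) × Fin m) (Fin (p + 1) × Fin m) k →ₗ[k] k where
  toFun X := ∑ o : Fin m, X (0, o) (Fin.last p, o)
  map_add' := by
    intro X Y
    simp only [Matrix.add_apply, Finset.sum_add_distrib]
  map_smul' := by
    intro c X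
    simp only [Matrix.smul_apply, Finset.smul_sum, RingHom.id_apply]

/-- The form. -/
def chi (p m : ℕ) (k : Type) [Field k] :
    Matrix (Fin (p + 1) × Fin m) (Fin (p + 1) × Fin m) k →ₗ[k] k where
  toFun X := ∑ o : Fin m, (X (0, o) (Fin.last p, o) - X (q p, o) (Fin.last p, o))
  map_add' := by
    intro X Y
    rw [← Finset.sum_add_distrib]
    refine Finset.sum_congr rfl fun o _ => ?_
    simp only [Matrix.add_apply]
    ring
  map_smul' := by
    intro c X
    simp only [Matrix.smul_apply, Finset.smul_sum, RingHom.id_apply, smul_sub]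

theorem blk_corner (α β γ : k) : blk p k α β γ 0 (Fin.last p) = γ := by
  simp [blk]

theorem blk_ql (hp : 2 ≤ p) (α β γ : k) : blk p k α β γ (q p) (Fin.last p) = β := by
  have hq : ((q p : Fin (p + 1)) : ℕ) = p - 1 := rfl
  rw [blk_apply, if_neg (by rw [hq]; omega), if_neg (by rw [hq, Fin.val_last]; omega),
    if_pos (by rw [hq, Fin.val_last]; omega)]

theorem theta_L (v : Fin m → Fin 3 → k) : theta p m k (L p m k v) = ∑ o, v o 2 := by
  change ∑ o : Fin m, _ = _
  refine Finset.sum_congr rfl fun o _ => ?_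
  rw [L_apply, Matrix.blockDiagonal_apply_eq, blk_corner]

theorem chi_L (hp : 2 ≤ p) (v : Fin m → Fin 3 → k) :
    chi p m k (L p m k v) = ∑ o, (v o 2 - v o 1) := by
  change ∑ o : Fin m, _ = _
  refine Finset.sum_congr rfl fun o _ => ?_
  rw [L_apply, Matrix.blockDiagonal_apply_eq, Matrix.blockDiagonal_apply_eq, blk_corner,
    blk_ql hp]

theorem theta_pow [CharP k p] (hp : 2 ≤ p) (v : Fin m → Fin 3 → k) :
    theta p m k (L p m k v ^ p) = ∑ o, v o 1 ^ p := by
  change ∑ o : Fin m, _ = _
  refine Finset.sum_congr rfl fun o _ => ?_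
  rw [L_apply, ← Matrix.blockDiagonal_pow, Matrix.blockDiagonal_apply_eq]
  exact blk_pow_corner hp _ _ _

theorem L_bracket [CharP k p] (hp : 2 ≤ p) (v w : Fin m → Fin 3 → k) :
    L p m k v * L p m k w - L p m k w * L p m k v =
      L p m k (fun o => ![0, v o 0 * w o 1 - w o 0 * v o 1, 0]) := by
  rw [L_apply, L_apply, L_apply, ← Matrix.blockDiagonal_mul, ← Matrix.blockDiagonal_mul,
    ← Matrix.blockDiagonal_sub]
  congr 1
  funext o
  exact blk_bracket hp _ _ _ _ _ _

/-- The one-dimensional module. -/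
def rho (p m : ℕ) (k : Type) [Field k] :
    Matrix (Fin (p + 1) × Fin m) (Fin (p + 1) × Fin m) k →ₗ[k] Module.End k k :=
  (theta p m k).smulRight 1

theorem rho_apply (X : Matrix (Fin (p + 1) × Fin m) (Fin (p + 1) × Fin m) k) :
    rho p m k X = theta p m k X • (1 : Module.End k k) := rfl

theorem reduced [CharP k p] (hp : p.Prime) [Infinite k] :
    IsReducedModule p (G p m k hp) (chi p m k) (rho p m k) := by
  constructor
  · intro X hX Y hY
    obtain ⟨v, rfl⟩ := (mem_lieAlg hp X).mp hX
    obtain ⟨w, rfl⟩ := (mem_lieAlg hp Y).mp hY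
    rw [L_bracket hp.two_le, rho_apply, rho_apply, rho_apply, theta_L]
    simp [smul_smul, mul_comm]
  · intro X hX
    obtain ⟨v, rfl⟩ := (mem_lieAlg hp X).mp hX
    have : Fact p.Prime := ⟨hp⟩
    rw [rho_apply, rho_apply, smul_pow, one_pow, theta_L, theta_pow hp.two_le, chi_L hp.two_le,
      ← sub_smul]
    congr 1
    rw [Finset.sum_sub_distrib, sub_pow_char, sum_pow_char p _ (fun o => v o 1)]

/-- The centraliser of the form. -/
def Lz (p m : ℕ) (k : Type) [Field k] : (Fin m → k) →ₗ[k]
    Matrix (Fin (p + 1) × Fin m) (Fin (p + 1) × Fin m) k where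
  toFun c := L p m k (fun o => ![0, 0, c o])
  map_add' := by
    intro c d
    rw [← map_add]
    congr 1
    funext o
    simp
  map_smul' := by
    intro c d
    rw [← map_smul]
    congr 1
    funext o
    simp

theorem Lz_apply (c : Fin m → k) : Lz p m k c = L p m k (fun o => ![0, 0, c o]) := rfl

theorem centralizer_eq [CharP k p] (hp : p.Prime) [Infinite k] :
    chiCentralizer (G p m k hp) (chi p m k) = LinearMap.range (Lz p m k) := by
  ext X
  rw [LinearMap.mem_range]
  constructor
  · rintro ⟨hX, h⟩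
    obtain ⟨v, rfl⟩ := (mem_lieAlg hp X).mp hX
    have h' : ∀ w : Fin m → Fin 3 → k, ∑ o, (v o 0 * w o 1 - w o 0 * v o 1) = 0 := by
      intro w
      have := h _ (L_mem hp w)
      rw [L_bracket hp.two_le, chi_L hp.two_le] at this
      simp only [Matrix.cons_val_zero, Matrix.cons_val_one, Matrix.cons_val, zero_sub,
        Finset.sum_neg_distrib, neg_eq_zero] at this
      exact this
    have h0 : ∀ o, v o 0 = 0 := by
      intro o
      have := h' (fun o' => ![0, if o' = o then 1 else 0, 0])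
      simpa using this
    have h1 : ∀ o, v o 1 = 0 := by
      intro o
      have := h' (fun o' => ![if o' = o then 1 else 0, 0, 0])
      simpa using this
    refine ⟨fun o => v o 2, ?_⟩
    rw [Lz_apply]
    congr 1
    funext o c
    fin_cases c
    · simp [h0]
    · simp [h1]
    · simp
  · rintro ⟨c, rfl⟩
    rw [Lz_apply]
    refine ⟨L_mem hp _, fun Y hY => ?_⟩
    obtain ⟨w, rfl⟩ := (mem_lieAlg hp Y).mp hY
    rw [L_bracket hp.two_le, chi_L hp.two_le]
    simp

theorem Lz_inj (hp : 2 ≤ p) : Function.Injective (Lz p m k) := by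
  intro c d h
  rw [Lz_apply, Lz_apply] at h
  have h1 := L_inj hp h
  funext o
  have := congrFun (congrFun h1 o) 2
  simpa using this

theorem finrank_centralizer [CharP k p] (hp : p.Prime) [Infinite k] :
    Module.finrank k (chiCentralizer (G p m k hp) (chi p m k)) = m := by
  rw [centralizer_eq, LinearMap.finrank_range_of_inj (Lz_inj hp.two_le)]
  simp

end Pool.Agent.H80.Kac
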